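import Pool.Agent.Lib.MP_e2257e_gt.D.Defs

/-!
# MP_e2257e_gt : from the iteration to the interface (statements of the pieces of block D)

Every `S_...` is a proposition; a piece `X` consists of a theorem `X_proof : ... → S_X` in its own
file `Pool/Agent/Lib/MP_e2257e_gt/D/X.lean`, which imports this file; other pieces may be used as
hypotheses.
-/

set_option autoImplicit false

open Filter Topology

namespace Pool.Agent.FS

open Pool.Agent.CW (CCC Dn gen Frc MS MF Sub Dat Sys EmbP S_gen S_loc S_dec S_decN)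
open Pool.Agent.CR (BigIx)

/-- (D1) The forcing notion.
Proof: (1) ccc: `Ccc hl Set.univ ⊤` (`IH`), `HV hl Set.univ ⊤` = all valid conditions (`HE_univ`).
(2) `StF j` with `resF j` is a complete suborder: `le_cut_iff`; `mono`: `LE_mono`, `cut_agr`;
`amal`: `glue q.1 p.1 j` is `≤ p` by `glue_le`, and below `q`: it is `≤ cut j q.1` by `le_cut_iff`,
`glue_agr`, and `cut j q.1 ≤ q.1` as `q ∈ StF j`.  (3) `LE hl ⊤ (cut j p) (cut i p)` for `i ≤ j`.
(4) `p.1.dom`, `p.1.tw` are finite: take `j < ⊤` above all the levels `< ⊤` in them. -/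
def S_ordF : Prop := ∀ (J X : Type) [LinearOrder J] [WellFoundedLT J] [OrderTop J] (hl : J → Prop),
  IH (X := X) hl (⊤ : J) → (∃ j : J, j < ⊤) → (∀ j : J, j < ⊤ → ∃ j', j < j' ∧ j' < ⊤) →
    CCC (FP J X hl) ∧ (∀ j, Sub (StF J X hl j) (resF j)) ∧
    (∀ i j, i ≤ j → StF J X hl i ⊆ StF J X hl j) ∧ ∀ p : FP J X hl, ∃ j < ⊤, p ∈ StF J X hl j

/-- (D2) Coordinates.
Proof: (1), (2), (4), (5): `V_iff`, `LE_iff`; for `cHr`: every `Fb hl β (cHr X β s) u m p` holds
(`RC.one`, `LE_one`).  (3) and (6): add the coordinate (`setH` with the name `RC.one`, `0`; `setT`), extend the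
stem `n + 1` times (by `Tot` decide a bound for the name at the current stem below `β`, `glue`, then append a
number which is at least the bound; compare `S_ext`), raise the height (`raise`).
(7) if `β ∈ p.dom` and `s = p.stem β`, then `p ≤ cHr X β s`, so almost every `G` containing `p` contains
`cHr X β s`; conditions `cHr X β s`, `cHr X β s'` in a directed `G` have comparable stems.
(8) similar with `cTr x α n a`, `a = {k ∈ p.el x α | k < n}`, `n = p.ht`.
(9), (10): countably many `s`, resp. ` (n, a)`. -/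
def S_coord : Prop := ∀ (J X : Type) [LinearOrder J] [WellFoundedLT J] [OrderTop J]
  (hl : J → Prop),
  (∀ β, hl β → ∀ s, V hl ⊤ (cHr X β s)) ∧
  (∀ β < ⊤, ∀ (s : List ℕ) (p : RC J X), V hl ⊤ p →
    (LE hl ⊤ p (cHr X β s) ↔ β ∈ p.dom ∧ s <+: p.stem β)) ∧
  (∀ β < ⊤, hl β → ∀ (n : ℕ) (p : FP J X hl), ∃ q ≤ p, β ∈ q.1.dom ∧ n < (q.1.stem β).length) ∧
  (∀ (x : X) (α : J), ¬ hl α → ∀ n (a : Finset ℕ), (∀ k ∈ a, k < n) → V hl ⊤ (cTr x α n a)) ∧
  (∀ (x : X), ∀ α < ⊤, ∀ n (a : Finset ℕ) (p : RC J X), V hl ⊤ p →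
    (LE hl ⊤ p (cTr x α n a) ↔ n ≤ p.ht ∧ (x, α) ∈ p.tw ∧ ∀ k < n, (k ∈ p.el x α ↔ k ∈ a))) ∧
  (∀ (x : X), ∀ α < ⊤, ¬ hl α → ∀ (n : ℕ) (p : FP J X hl), ∃ q ≤ p, (x, α) ∈ q.1.tw ∧
    n ≤ q.1.ht) ∧
  (∀ β < ⊤, hl β → ∀ p : FP J X hl, β ∈ p.1.dom → ∀ n < (p.1.stem β).length,
    Frc {G | hF J X hl β G n = (p.1.stem β).getD n 0} p) ∧
  (∀ (x : X), ∀ α < ⊤, ¬ hl α → ∀ p : FP J X hl, (x, α) ∈ p.1.tw → ∀ k < p.1.ht,
    Frc {G | k ∈ tF J X hl x α G ↔ k ∈ p.1.el x α} p) ∧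
  (∀ β < ⊤, hl β → MF Set.univ (hF J X hl β)) ∧
  (∀ (x : X), ∀ α < ⊤, ¬ hl α → ∀ k, MS Set.univ {G | k ∈ tF J X hl x α G})

/-- (D3) The Hechler reals are dominating.
Proof: by `S_loc` (2) it is enough to find below every `p` a `q` such that
`Frc {G | ∀ n ≥ (q.1.stem β).length, g G n ≤ hF .. β G n} q`.  By `S_coord` (3) let `β ∈ p.1.dom`.  For `u`
put `O m = {a ∈ HV hl Set.univ β | (∃ i, p.1.bd β u i ≤ m ∧ LE hl β a (p.1.nm β u i)) ∧ ∃ k ≤ m,
Frc {G | g G u.length = k} (toF _ : FP J X hl)}` (`toF` of the validity of `a` below `β`).  Density: extend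
into some `p.1.nm β u i` (`Tot`), then decide `g G u.length` by an element of `StF β` below `toF` (`S_decN` (1) with
`Sub` from `S_ordF`).  `S_name` at `β` with `E = univ` (`IH hl β`) gives `ν u`, `b u`;
`q = setH p.1 β (p.1.stem β) ν b`, `q ≤ p` (`setH_le`, `HLE`).  Let `n ≥ (q.stem β).length`.  Every `r ≤ q` with
`n < (r.1.stem β).length` (such `r` are dense below `q`) has `Fb hl β q (take n) (getD n 0) r`, so there are `r'`
valid below `β`, `LE hl β r' r`, `i` with `b .. i ≤ (r.1.stem β).getD n 0`, `LE hl β r' (ν .. i)`; the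
condition `glue r' r.1 β` is `≤ r`, and `≤ toF` of `ν .. i` (`le_cut_iff`), so it forces `g G n ≤ b .. i` and
`hF .. β G n = (r.1.stem β).getD n 0` (`S_coord` (7)). -/
def S_dom : Prop := ∀ (J X : Type) [LinearOrder J] [WellFoundedLT J] [OrderTop J] (hl : J → Prop),
  (∀ γ : J, IH (X := X) hl γ) → CCC (FP J X hl) →
    (∀ j, Sub (StF J X hl j) (resF j)) → ∀ β < ⊤, hl β → ∀ g, MF (StF J X hl β) g →
      ∀ᶠ G in gen (FP J X hl), ∀ᶠ n in atTop, g G n ≤ hF J X hl β G n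

/-- (D4) The towers are almost decreasing.
Proof: by `S_loc` (2), `S_coord` (6) it is enough to consider `p` with both coordinates in `p.1.tw` and to
show `Frc {G | ∀ k ≥ p.1.ht, k ∈ tF .. x α G → k ∈ tF .. x α' G} p`; for each `k` (countable
intersection, `S_gen` (1)) this holds below every `r ≤ p` with `k < r.1.ht` by `S_coord` (8) and coherence
(`LE.coh` for `r ≤ p`); such `r` are dense below `p`. -/
def S_tower : Prop := ∀ (J X : Type) [LinearOrder J] [WellFoundedLT J] [OrderTop J]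
  (hl : J → Prop), CCC (FP J X hl) → ∀ (x : X) (α' α : J), α' < α → α < ⊤ → ¬ hl α' → ¬ hl α →
    ∀ᶠ G in gen (FP J X hl), ∀ᶠ k in atTop, k ∈ tF J X hl x α G → k ∈ tF J X hl x α' G

/-- (D5) The towers are unbounded.
Proof: for every `m` it is enough (`S_loc` (2), `S_gen` (1)) to find below every `p` a `q` with
`Frc {G | ∃ i ≥ m, ∀ k, i ≤ k → k < g G i → k ∉ tF .. x α G} q`.  Let ` (x, α) ∈ p.1.tw`, `m ≤ p.1.ht =: i`
(`S_coord` (6)).  By `S_decN` (1) there is `q0 ∈ StF α`, `q0 ≤ resF α p`, and `k0` with `Frc {G | g G i = k0} q0`.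
`q = raise (glue q0.1 p.1 α) k0`: `≤ p`, `≤ q0` (as in `S_ordF`, `amal`), its set at ` (x, α)` is that of
`p`, contained in `i` (validity), its height is at least `k0`; use `S_coord` (8). -/
def S_unb : Prop := ∀ (J X : Type) [LinearOrder J] [WellFoundedLT J] [OrderTop J] (hl : J → Prop),
  CCC (FP J X hl) → (∀ j, Sub (StF J X hl j) (resF j)) → ∀ (x : X), ∀ α < ⊤, ¬ hl α →
    ∀ g, MF (StF J X hl α) g → ∀ᶠ G in gen (FP J X hl), ∃ᶠ i in atTop,
      ∀ k, i ≤ k → k < g G i → k ∉ tF J X hl x α G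

/-- (D6) Infinite sets are hit by the towers of all but countably many rows.
Proof: let `𝒟 k = {p | Frc {G | k ∈ A G} p}`.  (a) For all `p`, `m` there are `q ≤ p`, `k ≥ m` with
`q ∈ 𝒟 k`: otherwise `Frc {G | k ∉ A G} p` for all `k ≥ m` (`S_decN` (3), `S_loc`), so
`Frc {G | ¬ (A G).Infinite} p`, a contradiction (`S_gen` (2)).  (b) For every `m`, a maximal antichain `W m` in
`{q | ∃ k ≥ m, q ∈ 𝒟 k}` is countable; let `E` be a countable set of rows with `HE E q.1` for all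
`q ∈ ⋃ m, W m` (`HE_ctb`, `HE_mono`).  (c) Let `x ∉ E`, `α < ⊤`, `¬ hl α`.  Let
`D k = {r ∈ HV hl E ⊤ | ∃ q ∈ ⋃ m, W m, q ∈ 𝒟 k ∧ LE hl ⊤ r q.1}`.  `EInf hl E ⊤ ∅ D`: for
`r ∈ HV hl E ⊤`, `m` there is by maximality (and (a)) a common extension of `r` and some `q ∈ W m`; by
`Refl hl E ⊤` for the set `{r, q.1}` there is one in `HV hl E ⊤`.  `Hit hl E ⊤ (some (x, α))` gives: for all `p`,
`m` there are `q ≤ p`, `k ≥ m`, ` (x, α) ∈ q.tw`, `k ∈ q.el x α` and `d ∈ D k` with `q ≤ d`, so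
`Frc {G | k ∈ A G} q` and `Frc {G | k ∈ tF .. x α G} q` (`S_coord` (8), `k < q.ht` by validity).  Conclude
with `S_loc` (2) for every `m`. -/
def S_hitF : Prop := ∀ (J X : Type) [LinearOrder J] [WellFoundedLT J] [OrderTop J]
  (hl : J → Prop), IH (X := X) hl (⊤ : J) → CCC (FP J X hl) → ∀ A : Set (FP J X hl) → Set ℕ,
    (∀ k, MS Set.univ {G | k ∈ A G}) → (∀ᶠ G in gen (FP J X hl), (A G).Infinite) →
      ∃ E : Set X, E.Countable ∧ ∀ x ∉ E, ∀ α < ⊤, ¬ hl α →
        ∀ᶠ G in gen (FP J X hl), (A G ∩ tF J X hl x α G).Infinite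

/-- (D7) The levels.
Proof: `J` from `CR.exists_index` (`Pool.Agent.Lib.MP_72b52d_lc.CR.Closing`, theorem `exists_index`; import that
file), `hl j := ∀ i < j, ∃ i', i < i' ∧ i' < j` (limit levels).  For `j < ⊤` there is `y` with
`j < y < ⊤` (`big.reg` for `{j}`); let `s j` be the least element above `j` (well-founded); `s j < ⊤`,
`¬ hl (s j)`.  For `hl`: `s (s (... j))` form a countable set, bounded below `⊤` by `big.reg`; its least
strict upper bound is `> j`, `< ⊤` and satisfies `hl`. -/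
def S_lev : Prop := ∃ (J : Type) (_ : LinearOrder J) (_ : WellFoundedLT J) (_ : OrderTop J)
  (hl : J → Prop), BigIx J ∧ (∃ j : J, j < ⊤) ∧ (∀ j : J, j < ⊤ → ∃ β, j < β ∧ β < ⊤ ∧ hl β) ∧
    ∀ j : J, j < ⊤ → ∃ α, j < α ∧ α < ⊤ ∧ ¬ hl α

end Pool.Agent.FS
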