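import Pool.Agent.Lib.MP_e2257e_gt.A.All
import Pool.Agent.Lib.MP_e2257e_gt.D.Stmts

/-!
# MP_e2257e_gt : the interface for the iteration
-/

set_option autoImplicit false

open Filter Topology

namespace Pool.Agent.FS

open Pool.Agent.CW

theorem asm (hemb : S_emb) (hfin : S_fin) (ord : S_ordF) (co : S_coord) (hdom : S_dom)
    (htow : S_tower) (hunb : S_unb) (hhit : S_hitF) (hlev : S_lev) : MainStatement := by
  obtain ⟨J, _, _, _, hl, hbig, hne, hh, ht⟩ := hlev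
  obtain ⟨emb, he⟩ := hemb
  have hIH : ∀ γ : J, IH (X := ℝ) hl γ := all_IH hl
  have hlim : ∀ j : J, j < ⊤ → ∃ j', j < j' ∧ j' < ⊤ := fun j hj => by
    obtain ⟨β, h1, h2, _⟩ := hh j hj
    exact ⟨β, h1, h2⟩
  obtain ⟨o1, o2, o3, o4⟩ := ord J ℝ hl (hIH ⊤) hne hlim
  obtain ⟨_, _, _, _, _, _, _, _, c9, c10⟩ := co J ℝ hl
  have : Nonempty (FP J ℝ hl) := ⟨⟨.one, V_one ⊤⟩⟩
  exact hfin (FP J ℝ hl) J (datF J hl emb)
    { ccc := o1
      emb := he
      big := hbig
      mono := o3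
      cov := o4
      hcof := hh
      tcof := ht
      h_ms := c9
      t_ms := c10
      dom := hdom J ℝ hl hIH o1 o2
      tower := htow J ℝ hl o1
      unb := hunb J ℝ hl o1 o2
      hit := hhit J ℝ hl (hIH ⊤) o1 }

end Pool.Agent.FS
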