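import Pool.Agent.Lib.MP_e2257e_gt.D.Stmts

/-!
# MP_e2257e_gt : the coordinates of the iteration
-/

set_option autoImplicit false

open Filter Topology

namespace Pool.Agent.FS

open Pool.Agent.CW (CCC Dn gen Frc MS MF Sub Dat Sys EmbP S_gen S_loc S_dec S_decN Flt)

namespace Coord_

variable {J X : Type} [LinearOrder J] [WellFoundedLT J] [OrderTop J] {hl : J → Prop}

theorem c1 (β : J) (hβ : hl β) (s : List ℕ) : V hl ⊤ (cHr X β s) := by
  rw [V_iff]
  refine ⟨fun x j hx => absurd hx (Finset.notMem_empty _), fun δ hδ _ => ?_⟩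
  have h1 : δ = β := Finset.mem_singleton.1 hδ
  subst h1
  exact ⟨hβ, fun u => ⟨fun i => V_one _, fun r hr => ⟨r, hr, LE_refl hr, 0, LE_one _ _⟩⟩⟩

omit [OrderTop J] in
theorem fb (β : J) (s u : List ℕ) (m : ℕ) (p : RC J X) : Fb hl β (cHr X β s) u m p :=
  fun r hr _ => ⟨r, hr, LE_refl hr, 0, Nat.zero_le _, LE_one _ _⟩

theorem c2 (β : J) (hβ : β < ⊤) (s : List ℕ) (p : RC J X) :
    LE hl ⊤ p (cHr X β s) ↔ β ∈ p.dom ∧ s <+: p.stem β := by
  constructor
  · intro h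
    have h1 : HLE hl β p (cHr X β s) := h.hle (Finset.mem_singleton_self β) hβ
    exact ⟨h1.1, h1.2.1⟩
  · rintro ⟨h1, h2⟩
    rw [LE_iff]
    refine ⟨⟨Nat.zero_le _, fun x j hx => absurd hx (Finset.notMem_empty _)⟩, fun δ hδ _ => ?_⟩
    have h3 : δ = β := Finset.mem_singleton.1 hδ
    subst h3
    exact ⟨h1, h2, fun n _ _ => fb _ _ _ _ _, fun u m r _ _ _ _ => fb _ _ _ _ _⟩

/-- extending the stem by one number -/
theorem step (β : J) (hβ : β < ⊤) (p : RC J X) (hp : V hl ⊤ p) (hd : β ∈ p.dom) :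
    ∃ q, V hl ⊤ q ∧ LE hl ⊤ q p ∧ β ∈ q.dom ∧
      (q.stem β).length = (p.stem β).length + 1 := by
  have htot := hp.tot hd hβ
  have hlβ := hp.hlv hd hβ
  obtain ⟨r, hr1, hr2, i, hr3⟩ := (htot (p.stem β)).2 p (V_mono le_top hp)
  set k := p.bd β (p.stem β) i with hk
  set g := glue r p β with hg
  have hgV : V hl ⊤ g := V_glue hr1 hp hr2.ht
  have hgp : LE hl ⊤ g p := glue_le hr2 hp
  have hgs : g.stem β = p.stem β := by rw [hg, glue_stem, if_neg (lt_irrefl β)]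
  have hgn : g.nm β = p.nm β := by rw [hg, glue_nm, if_neg (lt_irrefl β)]
  have hgb : g.bd β = p.bd β := by rw [hg, glue_bd, if_neg (lt_irrefl β)]
  set q := setH g β (p.stem β ++ [k]) (p.nm β) (p.bd β) with hq
  have hqs : q.stem β = p.stem β ++ [k] := by rw [hq, setH_stem]
  have hqn : q.nm β = p.nm β := by rw [hq, setH_nm]
  have hqb : q.bd β = p.bd β := by rw [hq, setH_bd]
  have hqV : V hl ⊤ q := V_setH hgV hlβ htot
  have hqd : β ∈ q.dom := mem_setH_dom.2 (Or.inl rfl)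
  have hqr : LE hl β q r := by
    have h1 : Agr β q g := setH_agr _ _ _ _ _
    have h2 : Agr β g r := glue_agr _ _ _
    exact h1.le_left.2 (h2.le hr1)
  have hqg : LE hl ⊤ q g := by
    refine setH_le hgV fun _ => ?_
    rw [← hq]
    refine ⟨hqd, ?_, fun n h1 h2 => ?_, fun u m s hu hs hsq hi => ?_⟩
    · rw [hgs, hqs]
      exact List.prefix_append _ _
    · rw [hgs] at h1
      rw [hqs, List.length_append, List.length_singleton] at h2
      have h3 : n = (p.stem β).length := by omega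
      subst h3
      have h4 : (q.stem β).take (p.stem β).length = p.stem β := by
        rw [hqs, List.take_left']
        rfl
      have h5 : (q.stem β).getD (p.stem β).length 0 = k := by
        rw [hqs]
        simp
      rw [h4, h5]
      refine Fb.of (i := i) ?_ ?_
      · rw [hgb]
      · rw [hgn]
        exact LE_trans hqr hr3
    · obtain ⟨i', h3, h4⟩ := hi
      rw [hqb] at h3
      rw [hqn] at h4
      refine Fb.of (i := i') ?_ ?_
      · rw [hgb]
        exact h3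
      · rw [hgn]
        exact h4
  refine ⟨q, hqV, LE_trans hqg hgp, hqd, ?_⟩
  rw [hqs, List.length_append, List.length_singleton]

/-- adding the coordinate -/
theorem addH (β : J) (hlβ : hl β) (p : RC J X) (hp : V hl ⊤ p) :
    ∃ q, V hl ⊤ q ∧ LE hl ⊤ q p ∧ β ∈ q.dom := by
  by_cases hd : β ∈ p.dom
  · exact ⟨p, hp, LE_refl hp, hd⟩
  · refine ⟨setH p β [] (fun _ _ => .one) (fun _ _ => 0), ?_, ?_, ?_⟩
    · exact V_setH hp hlβ fun u => ⟨fun i => V_one _, fun r hr =>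
        ⟨r, hr, LE_refl hr, 0, LE_one _ _⟩⟩
    · exact setH_le hp fun h => absurd h hd
    · exact mem_setH_dom.2 (Or.inl rfl)

theorem c3 (β : J) (hβ : β < ⊤) (hlβ : hl β) (n : ℕ) (p : FP J X hl) :
    ∃ q ≤ p, β ∈ q.1.dom ∧ n < (q.1.stem β).length := by
  have key : ∀ n : ℕ, ∃ q, V hl ⊤ q ∧ LE hl ⊤ q p.1 ∧ β ∈ q.dom ∧ n ≤ (q.stem β).length := by
    intro n
    induction n with
    | zero =>
      obtain ⟨q, h1, h2, h3⟩ := addH β hlβ p.1 p.2
      exact ⟨q, h1, h2, h3, Nat.zero_le _⟩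
    | succ n ih =>
      obtain ⟨q, h1, h2, h3, h4⟩ := ih
      obtain ⟨q', h5, h6, h7, h8⟩ := step β hβ q h1 h3
      exact ⟨q', h5, LE_trans h6 h2, h7, by omega⟩
  obtain ⟨q, h1, h2, h3, h4⟩ := key (n + 1)
  exact ⟨⟨q, h1⟩, h2, h3, h4⟩

theorem c4 (x : X) (α : J) (hα : ¬ hl α) (n : ℕ) (a : Finset ℕ) (h : ∀ k ∈ a, k < n) :
    V hl ⊤ (cTr x α n a) := by
  classical
  rw [V_iff]
  refine ⟨fun y j hx _ => ?_, fun δ hδ => absurd hδ (Finset.notMem_empty _)⟩
  have h1 : (y, j) = (x, α) := Finset.mem_singleton.1 hx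
  have h2 : j = α := congrArg Prod.snd h1
  subst h2
  exact ⟨hα, h⟩

theorem c5 (x : X) (α : J) (hα : α < ⊤) (n : ℕ) (a : Finset ℕ) (p : RC J X) :
    LE hl ⊤ p (cTr x α n a) ↔ n ≤ p.ht ∧ (x, α) ∈ p.tw ∧ ∀ k < n, (k ∈ p.el x α ↔ k ∈ a) := by
  classical
  have hm : (x, α) ∈ (cTr x α n a).tw := Finset.mem_singleton_self _
  constructor
  · intro h
    exact ⟨h.ht, h.tw hm hα, fun k hk => h.el hm hα hk⟩
  · rintro ⟨h1, h2, h3⟩
    rw [LE_iff]
    refine ⟨⟨h1, fun y j hx _ => ?_⟩, fun δ hδ => absurd hδ (Finset.notMem_empty _)⟩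
    have h4 : (y, j) = (x, α) := Finset.mem_singleton.1 hx
    obtain ⟨h5, h6⟩ := Prod.mk.inj h4
    subst h5 h6
    refine ⟨h2, h3, fun j' hj' hx' => ?_⟩
    have h7 : (y, j') = (y, j) := Finset.mem_singleton.1 hx'
    exact absurd (congrArg Prod.snd h7) hj'.ne

theorem c6 (x : X) (α : J) (hα : α < ⊤) (hlα : ¬ hl α) (n : ℕ) (p : FP J X hl) :
    ∃ q ≤ p, (x, α) ∈ q.1.tw ∧ n ≤ q.1.ht := by
  classical
  set R : Finset X := insert x ((p.1.tw.filter (fun t => t.2 = α)).image Prod.fst) with hR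
  set e : X → Finset ℕ := fun y => if (y, α) ∈ p.1.tw then p.1.el y α else ∅ with he
  have hRm : ∀ y, (y, α) ∈ p.1.tw → y ∈ R := fun y hy => by
    rw [hR, Finset.mem_insert, Finset.mem_image]
    exact Or.inr ⟨(y, α), Finset.mem_filter.2 ⟨hy, rfl⟩, rfl⟩
  have hV : V hl ⊤ (setT p.1 α R e) := by
    refine V_setT p.2 hlα fun y _ k hk => ?_
    simp only [he] at hk
    split_ifs at hk with h
    · exact p.2.el h hα hk
    · exact absurd hk (Finset.notMem_empty _)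
  have hel : ∀ y j, (y, j) ∈ p.1.tw → (setT p.1 α R e).el y j = p.1.el y j := by
    intro y j hy
    rw [setT_el]
    split_ifs with h
    · subst h
      simp only [he, if_pos hy]
    · rfl
  have hle : LE hl ⊤ (setT p.1 α R e) p.1 := by
    rw [LE_iff]
    refine ⟨⟨le_rfl, fun y j hy hj => ⟨?_, fun k _ => by rw [hel y j hy], fun j' _ _ k hk hk' => ?_⟩⟩,
      fun δ hδ _ => HLE.same hδ rfl rfl rfl⟩
    · rw [mem_setT_tw]
      by_cases h : j = α
      · subst h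
        exact Or.inr ⟨hRm y hy, rfl⟩
      · exact Or.inl ⟨hy, h⟩
    · rw [hel y j hy] at hk
      exact absurd (p.2.el hy hj hk) (not_lt.2 hk')
  refine ⟨⟨raise (setT p.1 α R e) n, V_raise hV n⟩, ?_, ?_, ?_⟩
  · exact LE_trans (raise_le hV n) hle
  · show (x, α) ∈ (raise (setT p.1 α R e) n).tw
    rw [raise_tw, mem_setT_tw]
    exact Or.inr ⟨Finset.mem_insert_self _ _, rfl⟩
  · show n ≤ (raise (setT p.1 α R e) n).ht
    rw [raise_ht]
    exact le_max_right _ _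

theorem getD_prefix {s t : List ℕ} (h : s <+: t) {n : ℕ} (hn : n < s.length) :
    s.getD n 0 = t.getD n 0 := by
  obtain ⟨u, hu⟩ := h
  rw [← hu, List.getD_append _ _ _ _ hn]

theorem c7 (h1 : S_gen) (β : J) (hβ : β < ⊤) (hlβ : hl β) (p : FP J X hl)
    (hd : β ∈ p.1.dom) (n : ℕ) (hn : n < (p.1.stem β).length) :
    Frc {G | hF J X hl β G n = (p.1.stem β).getD n 0} p := by
  obtain ⟨-, -, -, g4, g5, -⟩ := h1 (FP J X hl)
  set q : FP J X hl := ⟨cHr X β (p.1.stem β), c1 β hlβ _⟩ with hq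
  have hpq : p ≤ q := (c2 β hβ _ _).2 ⟨hd, List.prefix_rfl⟩
  unfold Frc
  filter_upwards [g4 p q hpq, g5] with G hG1 hG2 hpG
  have hqG := hG1 hpG
  have hex : ∃ k, ∃ s : List ℕ, n < s.length ∧ s.getD n 0 = k ∧ ∃ p ∈ G, p.1 = cHr X β s :=
    ⟨(p.1.stem β).getD n 0, p.1.stem β, hn, rfl, q, hqG, rfl⟩
  classical
  show hF J X hl β G n = (p.1.stem β).getD n 0
  unfold hF
  rw [dif_pos hex]
  obtain ⟨s', a1, a2, p', a3, a4⟩ := Nat.find_spec hex
  obtain ⟨r, b1, b2, b3⟩ := hG2 q hqG p' a3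
  have b4 : LE hl ⊤ r.1 (cHr X β (p.1.stem β)) := b2
  have b5 : LE hl ⊤ r.1 (cHr X β s') := by
    have : LE hl ⊤ r.1 p'.1 := b3
    rwa [a4] at this
  rw [← a2, getD_prefix ((c2 β hβ _ _).1 b5).2 a1, getD_prefix ((c2 β hβ _ _).1 b4).2 hn]

theorem c8 (h1 : S_gen) (x : X) (α : J) (hα : α < ⊤) (hlα : ¬ hl α) (p : FP J X hl)
    (hx : (x, α) ∈ p.1.tw) (k : ℕ) (hk : k < p.1.ht) :
    Frc {G | k ∈ tF J X hl x α G ↔ k ∈ p.1.el x α} p := by
  classical
  obtain ⟨-, -, -, g4, g5, -⟩ := h1 (FP J X hl)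
  have hsub : ∀ k ∈ p.1.el x α, k < p.1.ht := fun k hk => p.2.el hx hα hk
  set q : FP J X hl := ⟨cTr x α p.1.ht (p.1.el x α), c4 x α hlα _ _ hsub⟩ with hq
  have hpq : p ≤ q := (c5 x α hα _ _ _).2 ⟨le_rfl, hx, fun _ _ => Iff.rfl⟩
  unfold Frc
  filter_upwards [g4 p q hpq, g5] with G hG1 hG2 hpG
  have hqG := hG1 hpG
  show k ∈ tF J X hl x α G ↔ k ∈ p.1.el x α
  constructor
  · rintro ⟨n', a', hka, p', hp', he⟩
    obtain ⟨r, b1, b2, b3⟩ := hG2 p hpG p' hp'
    have hV := p'.2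
    rw [he] at hV
    have hm : (x, α) ∈ (cTr x α n' a').tw := Finset.mem_singleton_self _
    have hkn : k < n' := hV.el hm hα hka
    have b5 : LE hl ⊤ r.1 (cTr x α n' a') := by
      have : LE hl ⊤ r.1 p'.1 := b3
      rwa [he] at this
    have b6 : LE hl ⊤ r.1 p.1 := b2
    exact (b6.el hx hα hk).1 ((((c5 x α hα _ _ _).1 b5).2.2 k hkn).2 hka)
  · intro hke
    exact ⟨p.1.ht, p.1.el x α, hke, q, hqG, rfl⟩

theorem ms_raw (c : RC J X) : MS Set.univ {G : Set (FP J X hl) | ∃ p ∈ G, p.1 = c} := by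
  unfold MS
  by_cases h : V hl ⊤ c
  · have e : {G : Set (FP J X hl) | ∃ p ∈ G, p.1 = c} = {G | (⟨c, h⟩ : FP J X hl) ∈ G} := by
      ext G
      constructor
      · rintro ⟨p, hp, hc⟩
        have : p = ⟨c, h⟩ := Subtype.ext hc
        show (⟨c, h⟩ : FP J X hl) ∈ G
        rw [← this]
        exact hp
      · intro hG
        exact ⟨_, hG, rfl⟩
    rw [e]
    exact MeasurableSpace.measurableSet_generateFrom ⟨_, Set.mem_univ _, rfl⟩
  · have e : {G : Set (FP J X hl) | ∃ p ∈ G, p.1 = c} = ∅ := by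
      ext G
      constructor
      · rintro ⟨p, hp, hc⟩
        exact absurd (hc ▸ p.2) h
      · intro hG
        exact absurd hG (Set.notMem_empty _)
    rw [e]
    exact @MeasurableSet.empty _ (Flt Set.univ)

theorem c9 (β : J) : MF Set.univ (hF J X hl β) := by
  intro n k
  unfold MS
  set E : ℕ → Set (Set (FP J X hl)) := fun k' =>
    {G | ∃ s : List ℕ, n < s.length ∧ s.getD n 0 = k' ∧ ∃ p ∈ G, p.1 = cHr X β s} with hE
  have hEm : ∀ k', @MeasurableSet _ (Flt Set.univ) (E k') := by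
    intro k'
    have e : E k' = ⋃ s : {s : List ℕ // n < s.length ∧ s.getD n 0 = k'},
        {G : Set (FP J X hl) | ∃ p ∈ G, p.1 = cHr X β s.1} := by
      ext G
      rw [Set.mem_iUnion]
      constructor
      · rintro ⟨s, h1, h2, h3⟩
        exact ⟨⟨s, h1, h2⟩, h3⟩
      · rintro ⟨s, h3⟩
        exact ⟨s.1, s.2.1, s.2.2, h3⟩
    rw [e]
    exact @MeasurableSet.iUnion _ _ (Flt Set.univ) _ _ fun s => ms_raw _
  have e : {G : Set (FP J X hl) | hF J X hl β G n = k} =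
      (E k ∩ ⋂ k' : {k' : ℕ // k' < k}, (E k'.1)ᶜ) ∪
        (if k = 0 then ⋂ k' : ℕ, (E k')ᶜ else ∅) := by
    classical
    ext G
    rw [Set.mem_union, Set.mem_inter_iff, Set.mem_iInter]
    show hF J X hl β G n = k ↔ _
    by_cases h : ∃ k, ∃ s : List ℕ, n < s.length ∧ s.getD n 0 = k ∧ ∃ p ∈ G, p.1 = cHr X β s
    · have h0 : ¬ G ∈ (if k = 0 then ⋂ k' : ℕ, (E k')ᶜ else ∅ : Set (Set (FP J X hl))) := by
        split_ifs
        · rw [Set.mem_iInter]
          intro h1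
          obtain ⟨k', hk'⟩ := h
          exact h1 k' hk'
        · exact Set.notMem_empty _
      unfold hF
      rw [dif_pos h, Nat.find_eq_iff]
      constructor
      · rintro ⟨h1, h2⟩
        exact Or.inl ⟨h1, fun k' hk' => h2 k'.1 k'.2 hk'⟩
      · rintro (⟨h1, h2⟩ | h1)
        · exact ⟨h1, fun m hm hm' => h2 ⟨m, hm⟩ hm'⟩
        · exact absurd h1 h0
    · have h0 : ∀ k', G ∉ E k' := fun k' hk' => h ⟨k', hk'⟩
      unfold hF
      rw [dif_neg h]
      constructor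
      · intro h1
        subst h1
        rw [if_pos rfl, Set.mem_iInter]
        exact Or.inr h0
      · rintro (⟨h1, _⟩ | h1)
        · exact absurd h1 (h0 k)
        · split_ifs at h1 with h2
          · exact h2.symm
          · exact absurd h1 (Set.notMem_empty _)
  rw [e]
  refine @MeasurableSet.union _ (Flt Set.univ) _ _ ?_ ?_
  · refine @MeasurableSet.inter _ (Flt Set.univ) _ _ (hEm k) ?_
    exact @MeasurableSet.iInter _ _ (Flt Set.univ) _ _ fun k' =>
      @MeasurableSet.compl _ _ (Flt Set.univ) (hEm k'.1)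
  · split_ifs
    · exact @MeasurableSet.iInter _ _ (Flt Set.univ) _ _ fun k' =>
        @MeasurableSet.compl _ _ (Flt Set.univ) (hEm k')
    · exact @MeasurableSet.empty _ (Flt Set.univ)

theorem c10 (x : X) (α : J) (k : ℕ) : MS Set.univ {G | k ∈ tF J X hl x α G} := by
  unfold MS
  have e : {G | k ∈ tF J X hl x α G} = ⋃ t : {t : ℕ × Finset ℕ // k ∈ t.2},
      {G : Set (FP J X hl) | ∃ p ∈ G, p.1 = cTr x α t.1.1 t.1.2} := by
    ext G
    rw [Set.mem_iUnion]
    constructor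
    · rintro ⟨n, a, h1, h2⟩
      exact ⟨⟨(n, a), h1⟩, h2⟩
    · rintro ⟨t, h⟩
      exact ⟨t.1.1, t.1.2, t.2, h⟩
  rw [e]
  exact @MeasurableSet.iUnion _ _ (Flt Set.univ) _ _ fun s => ms_raw _

end Coord_

open Coord_ in
theorem coord_proof (h1 : S_gen) : S_coord := by
  intro J X _ _ _ hl
  exact ⟨fun β hβ s => c1 β hβ s, fun β hβ s p _ => c2 β hβ s p, fun β hβ hl n p => c3 β hβ hl n p,
    fun x α hα n a h => c4 x α hα n a h, fun x α hα n a p _ => c5 x α hα n a p,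
    fun x α hα hl n p => c6 x α hα hl n p,
    fun β hβ hl p hd n hn => c7 h1 β hβ hl p hd n hn,
    fun x α hα hl p hx k hk => c8 h1 x α hα hl p hx k hk,
    fun β _ _ => c9 β, fun x α _ _ k => c10 x α k⟩

end Pool.Agent.FS
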