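import Pool.Agent.Lib.MP_e2257e_gt.A.Stmts
import Pool.Agent.Lib.MP_e2257e_gt.C.Stmts

/-!
# MP_e2257e_gt : from the iteration to the interface (definitions)
-/

set_option autoImplicit false

open Filter Topology

namespace Pool.Agent.FS

open Pool.Agent.CW (CCC Dn gen Frc MS MF Sub Dat Sys EmbP)

/-- the forcing notion: conditions valid below the top level -/
def FP (J X : Type) [LinearOrder J] [WellFoundedLT J] [OrderTop J] (hl : J → Prop) : Type :=
  {p : RC J X // V hl ⊤ p}

variable {J X : Type} [LinearOrder J] [WellFoundedLT J] [OrderTop J] {hl : J → Prop}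

instance : Preorder (FP J X hl) where
  le p q := LE hl ⊤ p.1 q.1
  le_refl p := LE_refl p.2
  le_trans _ _ _ h1 h2 := LE_trans h1 h2

theorem FP_le {p q : FP J X hl} : p ≤ q ↔ LE hl ⊤ p.1 q.1 := Iff.rfl

/-- the conditions with support below `j` (up to equivalence) -/
def StF (J X : Type) [LinearOrder J] [WellFoundedLT J] [OrderTop J] (hl : J → Prop) (j : J) :
    Set (FP J X hl) := {p | LE hl ⊤ (cut j p.1) p.1}

/-- the restriction of a condition to the levels below `j` -/
noncomputable def resF (j : J) (p : FP J X hl) : FP J X hl :=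
  ⟨cut j p.1, V_cut (V_mono le_top p.2) ⊤⟩

/-- a condition valid below `j` as an element of the forcing notion -/
noncomputable def toF {j : J} {a : RC J X} (h : V hl j a) : FP J X hl := ⟨cut j a, V_cut h ⊤⟩

/-- the condition with the stem `s` at the Hechler level `β` and a trivial name -/
def cHr (X : Type) (β : J) (s : List ℕ) : RC J X :=
  .mk {β} (fun _ => s) (fun _ _ _ => .one) (fun _ _ _ => 0) ∅ 0 (fun _ _ => ∅)

open Classical in
/-- the condition with height `n` and the set `a` at the tower coordinate ` (x, α)` -/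
noncomputable def cTr (x : X) (α : J) (n : ℕ) (a : Finset ℕ) : RC J X :=
  .mk ∅ (fun _ => []) (fun _ _ _ => .one) (fun _ _ _ => 0) {(x, α)} n (fun _ _ => a)

open Classical in
/-- the Hechler real at the level `β` -/
noncomputable def hF (J X : Type) [LinearOrder J] [WellFoundedLT J] [OrderTop J] (hl : J → Prop)
    (β : J) (G : Set (FP J X hl)) (n : ℕ) : ℕ :=
  if h : ∃ k, ∃ s : List ℕ, n < s.length ∧ s.getD n 0 = k ∧ ∃ p ∈ G, p.1 = cHr X β s
  then Nat.find h else 0

/-- the tower set at the coordinate ` (x, α)` -/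
def tF (J X : Type) [LinearOrder J] [WellFoundedLT J] [OrderTop J] (hl : J → Prop)
    (x : X) (α : J) (G : Set (FP J X hl)) : Set ℕ :=
  {k | ∃ (n : ℕ) (a : Finset ℕ), k ∈ a ∧ ∃ p ∈ G, p.1 = cTr x α n a}

/-- the data for the interface (rows = real numbers) -/
noncomputable def datF (J : Type) [LinearOrder J] [WellFoundedLT J] [OrderTop J] (hl : J → Prop)
    (emb : Set (ℕ × ℕ) → ℝ) : Dat (FP J ℝ hl) J where
  hl := hl
  St := StF J ℝ hl
  h := hF J ℝ hl
  t := tF J ℝ hl
  emb := emb

end Pool.Agent.FS
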