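import Pool.Agent.Lib.MP_e2257e_gt.D.Stmts

/-!
# MP_e2257e_gt : the Hechler reals are dominating
-/

set_option autoImplicit false

open Filter Topology

namespace Pool.Agent.FS

open Pool.Agent.CW (CCC Dn gen Frc MS MF Sub Dat Sys EmbP S_gen S_loc S_dec S_decN)

theorem dom_proof (h1 : S_gen) (h2 : S_loc) (h3 : S_decN) (h4 : S_name) (h5 : S_coord) :
    S_dom := by
  intro J X _ _ _ hl ih hccc hsub β hβ hhl g hg
  obtain ⟨_, _, c3, _, _, _, c7, _, _, _⟩ := h5 J X hl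
  obtain ⟨l1, l2⟩ := h2 (FP J X hl) hccc
  obtain ⟨d1, _, _, _, dmono⟩ := h3 (FP J X hl) hccc
  have : CountableInterFilter (gen (FP J X hl)) := (h1 (FP J X hl)).1
  refine l2 {G | ∀ᶠ n in atTop, g G n ≤ hF J X hl β G n} fun p0 => ?_
  obtain ⟨p, hp0, hpβ, _⟩ := c3 β hβ hhl 0 p0
  obtain ⟨hc, _, ht⟩ := ih β Set.univ
  have ht0 := ht none (fun x α h => by cases h)
  let O : List ℕ → ℕ → Set (RC J X) := fun u m => {a | a ∈ HV hl Set.univ β ∧
    (∃ i, p.1.bd β u i ≤ m ∧ LE hl β a (p.1.nm β u i)) ∧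
    ∃ k ≤ m, ∃ h : V hl β a, Frc {G | g G u.length = k} (toF h : FP J X hl)}
  have htot : Tot hl β p.1 := V.tot p.2 hpβ hβ
  have key : ∀ u, ∃ (ν : ℕ → RC J X) (b : ℕ → ℕ), (∀ i, ν i ∈ O u (b i)) ∧
      ∀ r, V hl β r → ∃ r', V hl β r' ∧ LE hl β r' r ∧ ∃ i, LE hl β r' (ν i) := by
    intro u
    refine h4 J X hl Set.univ β hc ht0 (O u) (fun m a ha => ha.1) fun r hr => ?_
    obtain ⟨r1, v1, e1, i, e2⟩ := (htot u).2 r hr.1
    have hst : (toF v1 : FP J X hl) ∈ StF J X hl β :=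
      (le_cut_iff le_top).2 ((cut_agr β r1).le_right.1 ((cut_agr β (cut β r1)).le (V_cut v1 β)))
    obtain ⟨q, hq, hqle, k, hk⟩ := d1 (StF J X hl β) (resF β) (hsub β) g hg u.length (toF v1) hst
    have vq : V hl β q.1 := V_mono le_top q.2
    have eq1 : LE hl β q.1 r1 := (le_cut_iff le_top).1 hqle
    exact ⟨q.1, ⟨vq, HE_univ _⟩, LE_trans eq1 e1, max (p.1.bd β u i) k, ⟨vq, HE_univ _⟩,
      ⟨i, le_max_left _ _, LE_trans eq1 e2⟩, k, le_max_right _ _, vq,
      dmono _ q (toF vq) hq hk⟩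
  choose ν b hν hd using key
  have hle : HLE hl β (setH p.1 β (p.1.stem β) ν b) p.1 := by
    refine ⟨mem_setH_dom.2 (Or.inl rfl), by rw [setH_stem], fun n a c => ?_, ?_⟩
    · rw [setH_stem] at c
      exact absurd c (not_lt.2 a)
    · rintro u m r _ _ _ ⟨i, hi1, hi2⟩
      rw [setH_bd] at hi1
      rw [setH_nm] at hi2
      obtain ⟨_, ⟨i', a1, a2⟩, _⟩ := hν u i
      exact Fb.of (a1.trans hi1) (LE_trans hi2 a2)
  have hval : ∀ u, (∀ i, V hl β (ν u i)) ∧ ∀ r, V hl β r → ∃ r', V hl β r' ∧ LE hl β r' r ∧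
      ∃ i, LE hl β r' (ν u i) := fun u => ⟨fun i => (hν u i).1.1, hd u⟩
  let q : FP J X hl := ⟨setH p.1 β (p.1.stem β) ν b, V_setH p.2 hhl hval⟩
  have hqp : q ≤ p := setH_le p.2 (fun _ => hle)
  refine ⟨q, le_trans hqp hp0, ?_⟩
  have hmain : ∀ n, (p.1.stem β).length ≤ n → Frc {G | g G n ≤ hF J X hl β G n} q := by
    intro n hn
    refine l1 _ q fun r0 hr0 => ?_
    obtain ⟨r, hr1, hrβ, hrn⟩ := c3 β hβ hhl n r0
    have hrq : LE hl ⊤ r.1 (setH p.1 β (p.1.stem β) ν b) := le_trans hr1 hr0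
    have hh := hrq.hle (mem_setH_dom.2 (Or.inl rfl)) hβ
    have hf := hh.2.2.1 n (by rw [setH_stem]; exact hn) hrn
    have vr : V hl β r.1 := V_mono le_top r.2
    obtain ⟨r', v', e', i, hi1, hi2⟩ := hf r.1 vr (LE_refl vr)
    rw [setH_bd] at hi1
    rw [setH_nm] at hi2
    have hul : ((r.1.stem β).take n).length = n := by
      rw [List.length_take]
      omega
    obtain ⟨_, _, k, hk, vν, hfrc⟩ := hν ((r.1.stem β).take n) i
    rw [hul] at hfrc
    let s : FP J X hl := ⟨glue r' r.1 β, V_glue v' r.2 e'.ht⟩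
    have hs1 : s ≤ r := glue_le e' r.2
    have hs2 : s ≤ toF vν := (le_cut_iff le_top).2 ((glue_agr r' r.1 β).le_left.2 hi2)
    refine ⟨s, le_trans hs1 hr1, ?_⟩
    have f1 := dmono _ _ s hs2 hfrc
    have hsβ : β ∈ s.1.dom := mem_glue_dom.2 (Or.inr ⟨hrβ, le_rfl⟩)
    have hst : s.1.stem β = r.1.stem β := by
      show (glue r' r.1 β).stem β = _
      rw [glue_stem, if_neg (lt_irrefl _)]
    have f2 := c7 β hβ hhl s hsβ n (by rw [hst]; exact hrn)
    refine (f1.and f2).mono fun G hG hsG => ?_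
    have a1 : g G n = k := hG.1 hsG
    have a2 : hF J X hl β G n = (s.1.stem β).getD n 0 := hG.2 hsG
    show g G n ≤ hF J X hl β G n
    rw [a1, a2, hst]
    exact hk.trans hi1
  have hall : ∀ᶠ G in gen (FP J X hl), ∀ n, (p.1.stem β).length ≤ n → q ∈ G →
      g G n ≤ hF J X hl β G n := by
    rw [eventually_countable_forall]
    intro n
    by_cases hn : (p.1.stem β).length ≤ n
    · exact (hmain n hn).mono fun G hG _ hq => hG hq
    · exact Eventually.of_forall fun G h => absurd h hn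
  refine hall.mono fun G hG hq => ?_
  exact eventually_atTop.2 ⟨_, fun n hn => hG n hn hq⟩

end Pool.Agent.FS
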