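import Pool.Agent.Lib.MP_e2257e_gt.D.Stmts

/-!
# MP_e2257e_gt : infinite sets are hit by the towers of all but countably many rows (D6)
-/

set_option autoImplicit false

open Filter Topology

namespace Pool.Agent.FS

open Pool.Agent.CW (CCC Dn gen Frc MS MF Sub Dat Sys EmbP S_gen S_loc S_dec S_decN)

namespace HitF_

/-- a countable maximal antichain in a set of conditions -/
theorem maxac {P : Type} [Preorder P] (hc : CCC P) (S : Set P) :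
    ∃ W : Set P, W ⊆ S ∧ W.Countable ∧ ∀ p ∈ S, ∃ w ∈ W, ∃ r, r ≤ p ∧ r ≤ w := by
  obtain ⟨W, hW⟩ := zorn_subset
    {B : Set P | B ⊆ S ∧ ∀ p ∈ B, ∀ q ∈ B, p ≠ q → ¬ ∃ r, r ≤ p ∧ r ≤ q} (by
      intro c hcS hch
      refine ⟨⋃₀ c, ⟨Set.sUnion_subset fun B hB => (hcS hB).1, ?_⟩, fun B hB =>
        Set.subset_sUnion_of_mem hB⟩
      rintro p ⟨B, hB, hp⟩ q ⟨B', hB', hq⟩ hne
      rcases hch.total hB hB' with h | h
      · exact (hcS hB').2 p (h hp) q hq hne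
      · exact (hcS hB).2 p hp q (h hq) hne)
  refine ⟨W, hW.prop.1, hc W hW.prop.2, fun p hp => ?_⟩
  by_contra hcon
  push Not at hcon
  have hpW : p ∉ W := fun h => hcon p h p le_rfl le_rfl
  have hins : insert p W ∈ {B : Set P | B ⊆ S ∧
      ∀ p ∈ B, ∀ q ∈ B, p ≠ q → ¬ ∃ r, r ≤ p ∧ r ≤ q} := by
    refine ⟨Set.insert_subset hp hW.prop.1, ?_⟩
    rintro a (rfl | ha) b (rfl | hb) hne ⟨r, hr1, hr2⟩
    · exact hne rfl
    · exact hcon b hb r hr1 hr2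
    · exact hcon a ha r hr2 hr1
    · exact hW.prop.2 a ha b hb hne ⟨r, hr1, hr2⟩
  exact hpW (hW.le_of_ge hins (Set.subset_insert p W) (Set.mem_insert p W))

end HitF_

theorem hitF_proof (h1 : S_gen) (h2 : S_loc) (h3 : S_decN) (h4 : S_coord) : S_hitF := by
  intro J X _ _ _ hl ih hc A hA hinf
  obtain ⟨g1, g2, -, -, -, -⟩ := h1 (FP J X hl)
  obtain ⟨l1, l2⟩ := h2 (FP J X hl) hc
  obtain ⟨-, -, n3, -, n5⟩ := h3 (FP J X hl) hc
  obtain ⟨-, -, -, -, -, -, -, c8, -, -⟩ := h4 J X hl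
  -- (a)
  have ha : ∀ (p : FP J X hl) (m : ℕ), ∃ q ≤ p, ∃ k, m ≤ k ∧ Frc {G | k ∈ A G} q := by
    intro p m
    by_contra hcon
    push Not at hcon
    have h5 : ∀ k, m ≤ k → Frc {G | k ∈ A G}ᶜ p := fun k hk =>
      l1 _ p fun q hq => n3 _ (hA k) q (hcon q hq k hk)
    have h6 : ∀ᶠ G in gen (FP J X hl), ∀ k, m ≤ k → p ∈ G → k ∉ A G := by
      rw [eventually_countable_forall]
      intro k
      by_cases hk : m ≤ k
      · filter_upwards [h5 k hk] with G hG _ hp using hG hp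
      · exact Eventually.of_forall fun G h => absurd h hk
    obtain ⟨G, hpG, hG1, hG2⟩ := g2 {G | (A G).Infinite ∧ ∀ k, m ≤ k → p ∈ G → k ∉ A G}
      (by filter_upwards [hinf, h6] with G a b using ⟨a, b⟩) p
    refine hG1 ((Set.finite_lt_nat m).subset fun k hk => ?_)
    by_contra hkm
    exact hG2 k (not_lt.1 hkm) hpG hk
  -- (b)
  choose W hW1 hW2 hW3 using fun m : ℕ =>
    HitF_.maxac hc {q : FP J X hl | ∃ k, m ≤ k ∧ Frc {G | k ∈ A G} q}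
  choose E0 hE1 hE2 using fun q : FP J X hl => HE_ctb q.1
  refine ⟨⋃ m, ⋃ q ∈ W m, E0 q, Set.countable_iUnion fun m =>
    Set.Countable.biUnion (hW2 m) fun q _ => hE1 q, ?_⟩
  set E : Set X := ⋃ m, ⋃ q ∈ W m, E0 q with hE
  have hWE : ∀ m, ∀ w ∈ W m, w.1 ∈ HV hl E ⊤ := by
    intro m w hw
    refine ⟨w.2, HE_mono (fun x hx => ?_) (hE2 w)⟩
    rw [hE]
    simp only [Set.mem_iUnion]
    exact ⟨m, w, hw, hx⟩
  intro x hx α hα hhα
  -- (c)
  let D : ℕ → Set (RC J X) := fun k => {r | r ∈ HV hl E ⊤ ∧ ∃ m, ∃ q ∈ W m,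
    Frc {G | k ∈ A G} q ∧ LE hl ⊤ r q.1}
  have hD : EInf hl E ⊤ ∅ D := by
    intro r hr _ m
    obtain ⟨q, hq, k, hk, hqk⟩ := ha ⟨r, hr.1⟩ m
    obtain ⟨w, hw, s, hs1, hs2⟩ := hW3 m q ⟨k, hk, hqk⟩
    obtain ⟨k', hk', hwk'⟩ := hW1 m hw
    obtain ⟨q', hq', hle⟩ := (ih E).2.1 {r, w.1} (Set.toFinite _)
      (by
        rintro a (rfl | rfl)
        · exact hr
        · exact hWE m w hw) s.1 s.2
      (by
        rintro a (rfl | rfl)
        · exact LE_trans hs1 hq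
        · exact hs2)
    exact ⟨q', hq', hle r (Or.inl rfl), k', hk', hq', m, w, hw, hwk', hle w.1 (Or.inr rfl)⟩
  have hfin : ∀ m : ℕ, ∀ᶠ G in gen (FP J X hl), ∃ k, m ≤ k ∧ k ∈ A G ∧ k ∈ tF J X hl x α G := by
    intro m
    refine l2 {G | ∃ k, m ≤ k ∧ k ∈ A G ∧ k ∈ tF J X hl x α G} fun p => ?_
    obtain ⟨q, hqV, hqp, k, hk, hgot, d, -, ⟨-, m', w, hw, hwk, hdw⟩, hqd⟩ :=
      (ih E).2.2 (some (x, α)) (by
        intro x' α' he
        simp only [Option.some.injEq, Prod.mk.injEq] at he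
        obtain ⟨rfl, rfl⟩ := he
        exact ⟨hx, hhα⟩) D hD p.1 p.2 m
    obtain ⟨ht, hel⟩ := hgot x α rfl hα
    refine ⟨⟨q, hqV⟩, hqp, ?_⟩
    have e1 : Frc {G | k ∈ A G} (⟨q, hqV⟩ : FP J X hl) := n5 _ w ⟨q, hqV⟩ (LE_trans hqd hdw) hwk
    have e2 := c8 x α hα hhα ⟨q, hqV⟩ ht k (hqV.el ht hα hel)
    unfold Frc at e1 e2 ⊢
    filter_upwards [e1, e2] with G a b hG
    exact ⟨k, hk, a hG, (b hG).2 hel⟩
  rw [← eventually_countable_forall] at hfin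
  filter_upwards [hfin] with G hG
  refine Set.infinite_of_forall_exists_gt fun m => ?_
  obtain ⟨k, hk, h7, h8⟩ := hG (m + 1)
  exact ⟨k, ⟨h7, h8⟩, hk⟩

end Pool.Agent.FS
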