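import Pool.Agent.Lib.MP_e2257e_gt.D.Stmts
import Pool.Agent.Lib.MP_72b52d_lc.CR.Closing

/-!
# MP_e2257e_gt : the levels
-/

set_option autoImplicit false

open Filter Topology

namespace Pool.Agent.FS

open Pool.Agent.CR (BigIx)

/-- (D7) -/
theorem lev_proof : S_lev := by
  obtain ⟨J, hlo, hwf, hot, hob, hbt, hbig⟩ := Pool.Agent.CR.exists_index
  have hwf' : WellFounded (fun a b : J => a < b) := hwf.wf
  -- successor of a level
  have hsucc : ∀ j : J, j < ⊤ → ∃ s : J, j < s ∧ s < ⊤ ∧ ∀ y, j < y → s ≤ y := by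
    intro j hj
    obtain ⟨y, hy, hjy⟩ := hbig.reg {j}
      (by rw [Cardinal.mk_singleton]; exact Cardinal.one_le_aleph0.trans Cardinal.aleph0_le_continuum)
      (by intro x hx; rw [Set.mem_singleton_iff.1 hx]; exact hj)
    have hjy' : j < y := hjy j rfl
    have hne : ({y | j < y} : Set J).Nonempty := ⟨y, hjy'⟩
    refine ⟨hwf'.min {y | j < y} hne, hwf'.min_mem _ hne, ?_, fun z hz => ?_⟩
    · exact lt_of_le_of_lt (not_lt.1 (hwf'.not_lt_min _ hjy')) hy
    · exact not_lt.1 (hwf'.not_lt_min _ hz)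
  refine ⟨J, hlo, hwf, hot, fun j => ∀ i < j, ∃ i', i < i' ∧ i' < j, hbig, ⟨⊥, hbt⟩, ?_, ?_⟩
  · intro j hj
    -- the sequence of successors
    let a : ℕ → {x : J // x < ⊤} := fun n => Nat.rec ⟨j, hj⟩
      (fun _ x => ⟨Classical.choose (hsucc x.1 x.2), (Classical.choose_spec (hsucc x.1 x.2)).2.1⟩) n
    have ha : ∀ n, (a n).1 < (a (n + 1)).1 := fun n =>
      (Classical.choose_spec (hsucc (a n).1 (a n).2)).1
    obtain ⟨y, hy, hay⟩ := hbig.reg (Set.range fun n => (a n).1)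
      ((Cardinal.mk_le_aleph0_iff.2 (Set.countable_range _).to_subtype).trans
        Cardinal.aleph0_le_continuum)
      (by rintro x ⟨n, rfl⟩; exact (a n).2)
    have hyU : y ∈ ({y | ∀ n, (a n).1 < y} : Set J) := fun n => hay _ ⟨n, rfl⟩
    have hne : ({y | ∀ n, (a n).1 < y} : Set J).Nonempty := ⟨y, hyU⟩
    have hmem := hwf'.min_mem _ hne
    refine ⟨hwf'.min {y | ∀ n, (a n).1 < y} hne, hmem 0, ?_, fun i hi => ?_⟩
    · exact lt_of_le_of_lt (not_lt.1 (hwf'.not_lt_min _ hyU)) hy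
    · have hni : ¬ ∀ n, (a n).1 < i := fun h =>
        hwf'.not_lt_min {y | ∀ n, (a n).1 < y} (x := i) h hi
      push Not at hni
      obtain ⟨n, hn⟩ := hni
      exact ⟨(a (n + 1)).1, lt_of_le_of_lt hn (ha n), hmem (n + 1)⟩
  · intro j hj
    obtain ⟨s, hjs, hst, hmin⟩ := hsucc j hj
    refine ⟨s, hjs, hst, fun h => ?_⟩
    obtain ⟨i', h1, h2⟩ := h j hjs
    exact absurd (hmin i' h1) (not_le.2 h2)

end Pool.Agent.FS
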