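import Pool.Agent.Lib.MP_e2257e_gt.D.Stmts

/-!
# MP_e2257e_gt : the forcing notion (piece D1)
-/

set_option autoImplicit false

open Filter Topology

namespace Pool.Agent.FS

open Pool.Agent.CW (CCC Dn gen Frc MS MF Sub Dat Sys EmbP S_gen S_loc S_dec S_decN)

namespace OrdF_

variable {J X : Type} [LinearOrder J] [WellFoundedLT J] [OrderTop J] {hl : J → Prop}

theorem cut_le_self {j : J} {p : RC J X} (hp : V hl ⊤ p) : LE hl j (cut j p) p :=
  (cut_agr j p).le (V_mono le_top hp)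

omit [WellFoundedLT J] in
theorem bound (hne : ∃ j : J, j < ⊤) (hcof : ∀ j : J, j < ⊤ → ∃ j', j < j' ∧ j' < ⊤)
    (S : Finset J) : ∃ j : J, j < ⊤ ∧ ∀ i ∈ S, i < ⊤ → i < j := by
  classical
  induction S using Finset.induction_on with
  | empty =>
    obtain ⟨j, hj⟩ := hne
    exact ⟨j, hj, fun i hi => absurd hi (Finset.notMem_empty _)⟩
  | insert a S _ ih =>
    obtain ⟨j, hj, h⟩ := ih
    by_cases ha : a < ⊤
    · obtain ⟨j', h1, h2⟩ := hcof (max a j) (max_lt ha hj)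
      refine ⟨j', h2, fun i hi hi' => ?_⟩
      rcases Finset.mem_insert.1 hi with h3 | h3
      · rw [h3]
        exact (le_max_left a j).trans_lt h1
      · exact (h i h3 hi').trans ((le_max_right a j).trans_lt h1)
    · refine ⟨j, hj, fun i hi hi' => ?_⟩
      rcases Finset.mem_insert.1 hi with h3 | h3
      · rw [h3] at hi'
        exact absurd hi' ha
      · exact h i h3 hi'

theorem ccc (hIH : IH (X := X) hl (⊤ : J)) : CCC (FP J X hl) := by
  intro A hA
  have h1 : (Subtype.val '' A : Set (RC J X)).Countable := by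
    refine (hIH Set.univ).1 _ ?_ ?_
    · rintro _ ⟨p, _, rfl⟩
      exact ⟨p.2, HE_univ _⟩
    · rintro _ ⟨p, hp, rfl⟩ _ ⟨q, hq, rfl⟩ hne ⟨r, hr, h2, h3⟩
      exact hA p hp q hq (fun h => hne (congrArg Subtype.val h)) ⟨⟨r, hr.1⟩, h2, h3⟩
  exact Set.countable_of_injective_of_countable_image
    (Subtype.val_injective.injOn) h1

theorem sub (j : J) : Sub (StF J X hl j) (resF j) where
  mem := fun p => by
    change LE hl ⊤ (cut j (cut j p.1)) (cut j p.1)
    rw [le_cut_iff le_top, (cut_agr j (cut j p.1)).le_left]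
    exact cut_le_self p.2
  le := fun p => by
    change LE hl ⊤ p.1 (cut j p.1)
    rw [le_cut_iff le_top]
    exact LE_refl (V_mono le_top p.2)
  mono := fun p q h => by
    change LE hl ⊤ (cut j p.1) (cut j q.1)
    rw [le_cut_iff le_top, (cut_agr j p.1).le_left]
    exact LE_mono le_top h
  id := fun p hp => hp
  amal := fun p q hq h => by
    have h1 : LE hl j q.1 p.1 := (le_cut_iff le_top).1 h
    refine ⟨⟨glue q.1 p.1 j, V_glue (V_mono le_top q.2) p.2 h1.ht⟩, glue_le h1 p.2, ?_⟩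
    change LE hl ⊤ (glue q.1 p.1 j) q.1
    refine LE_trans ?_ hq
    rw [le_cut_iff le_top]
    exact (glue_agr q.1 p.1 j).le (V_mono le_top q.2)

theorem mono (i j : J) (hij : i ≤ j) : StF J X hl i ⊆ StF J X hl j := by
  intro p hp
  change LE hl ⊤ (cut j p.1) p.1
  refine LE_trans ?_ hp
  rw [le_cut_iff le_top]
  exact ((cut_agr j p.1).mono hij).le (V_mono le_top p.2)

theorem cov (hne : ∃ j : J, j < ⊤) (hcof : ∀ j : J, j < ⊤ → ∃ j', j < j' ∧ j' < ⊤)
    (p : FP J X hl) : ∃ j < ⊤, p ∈ StF J X hl j := by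
  classical
  obtain ⟨j, hj, h⟩ := bound hne hcof (p.1.dom ∪ p.1.tw.image Prod.snd)
  refine ⟨j, hj, ?_⟩
  change LE hl ⊤ (cut j p.1) p.1
  rw [LE_iff]
  refine ⟨⟨le_rfl, fun x i hx hi => ⟨mem_cut_tw.2 ⟨hx, ?_⟩, fun _ _ => Iff.rfl,
    fun j' _ _ k hk hk' => absurd (p.2.el hx hi hk) (not_lt.2 hk')⟩⟩, fun δ hδ hd =>
      HLE.same (mem_cut_dom.2 ⟨hδ, ?_⟩) rfl rfl rfl⟩
  · exact h i (Finset.mem_union_right _ (Finset.mem_image.2 ⟨(x, i), hx, rfl⟩)) hi
  · exact h δ (Finset.mem_union_left _ hδ) hd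

end OrdF_

/-- (D1) The forcing notion. -/
theorem ordF_proof : S_ordF := fun _ _ _ _ _ _ hIH hne hcof =>
  ⟨OrdF_.ccc hIH, OrdF_.sub, OrdF_.mono, OrdF_.cov hne hcof⟩

end Pool.Agent.FS
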