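import Pool.Agent.Lib.MP_e2257e_gt.D.Stmts

/-!
# MP_e2257e_gt : the towers are almost decreasing
-/

set_option autoImplicit false

open Filter Topology

namespace Pool.Agent.FS

open Pool.Agent.CW (CCC Dn gen Frc MS MF Sub Dat Sys EmbP S_gen S_loc S_dec S_decN)

theorem tower_proof (h1 : S_gen) (h2 : S_loc) (h3 : S_coord) : S_tower := by
  intro J X _ _ _ hl hc x α' α hαα hα hnα' hnα
  have hα' : α' < ⊤ := hαα.trans hα
  obtain ⟨-, -, -, -, -, c6, -, c8, -, -⟩ := h3 J X hl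
  obtain ⟨g1, -⟩ := h1 (FP J X hl)
  obtain ⟨l1, l2⟩ := h2 (FP J X hl) hc
  refine l2 {G | ∀ᶠ k in atTop, k ∈ tF J X hl x α G → k ∈ tF J X hl x α' G} fun p => ?_
  obtain ⟨q1, hq1, hq1t, -⟩ := c6 x α hα hnα 0 p
  obtain ⟨q, hq, hqt', -⟩ := c6 x α' hα' hnα' 0 q1
  have hqt : (x, α) ∈ q.1.tw := LE.tw (FP_le.1 hq) hq1t hα
  refine ⟨q, hq.trans hq1, ?_⟩
  have key : ∀ k : ℕ, q.1.ht ≤ k →
      Frc {G | k ∈ tF J X hl x α G → k ∈ tF J X hl x α' G} q := by
    intro k hk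
    refine l1 _ q fun r hr => ?_
    obtain ⟨s, hs, -, hsk⟩ := c6 x α hα hnα (k + 1) r
    refine ⟨s, hs, ?_⟩
    have hsq : LE hl ⊤ s.1 q.1 := FP_le.1 (hs.trans hr)
    have f1 := c8 x α hα hnα s (LE.tw hsq hqt hα) k (by omega)
    have f2 := c8 x α' hα' hnα' s (LE.tw hsq hqt' hα') k (by omega)
    unfold Frc at f1 f2 ⊢
    filter_upwards [f1, f2] with G e1 e2 hG hkα
    have e1' := (e1 hG).1 hkα
    exact (e2 hG).2 (LE.coh hsq hqt hα hαα hqt' e1' hk)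
  unfold Frc
  have hall : ∀ᶠ G in gen (FP J X hl), ∀ k : ℕ, q.1.ht ≤ k → q ∈ G →
      (k ∈ tF J X hl x α G → k ∈ tF J X hl x α' G) := by
    rw [eventually_countable_forall]
    intro k
    by_cases hk : q.1.ht ≤ k
    · filter_upwards [key k hk] with G hG _ hqG
      exact hG hqG
    · exact Eventually.of_forall fun G h => absurd h hk
  filter_upwards [hall] with G hG hqG
  exact eventually_atTop.2 ⟨q.1.ht, fun k hk => hG k hk hqG⟩

end Pool.Agent.FS
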