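import Pool.Agent.Lib.MP_e2257e_gt.D.Stmts

/-!
# MP_e2257e_gt : piece D5 (the towers are unbounded)
-/

set_option autoImplicit false

open Filter Topology

namespace Pool.Agent.FS

open Pool.Agent.CW (CCC Dn gen Frc MS MF Sub Dat Sys EmbP S_gen S_loc S_dec S_decN)

theorem unb_proof (h1 : S_gen) (h2 : S_loc) (h3 : S_decN) (h4 : S_coord) : S_unb := by
  intro J X _ _ _ hl ccc hsub x α hα hnl g hg
  have hci : CountableInterFilter (gen (FP J X hl)) := (h1 (FP J X hl)).1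
  obtain ⟨_, _, _, _, _, c6, _, c8, _, _⟩ := h4 J X hl
  obtain ⟨d1, _, _, _, d5⟩ := h3 (FP J X hl) ccc
  have key : ∀ m : ℕ, ∀ᶠ G in gen (FP J X hl), ∃ i ≥ m, ∀ k, i ≤ k → k < g G i →
      k ∉ tF J X hl x α G := by
    intro m
    refine (h2 (FP J X hl) ccc).2 {G | ∃ i ≥ m, ∀ k, i ≤ k → k < g G i →
      k ∉ tF J X hl x α G} ?_
    intro p0
    obtain ⟨p, hp0, hxp, hmp⟩ := c6 x α hα hnl m p0
    obtain ⟨q0, hq0, hq0p, k0, hk0⟩ := d1 (StF J X hl α) (resF α) (hsub α) g hg p.1.ht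
      (resF α p) ((hsub α).mem p)
    have hq0p' : LE hl α q0.1 p.1 := (le_cut_iff le_top).1 hq0p
    have hV : V hl ⊤ (glue q0.1 p.1 α) := V_glue (V_mono le_top q0.2) p.2 hq0p'.ht
    have hV' : V hl ⊤ (raise (glue q0.1 p.1 α) k0) := V_raise hV k0
    have hgp : LE hl ⊤ (glue q0.1 p.1 α) p.1 := glue_le hq0p' p.2
    have hgq : LE hl ⊤ (glue q0.1 p.1 α) q0.1 := by
      have e1 : LE hl α (glue q0.1 p.1 α) q0.1 :=
        (glue_agr q0.1 p.1 α).le (V_mono le_top q0.2)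
      have e2 : LE hl ⊤ (glue q0.1 p.1 α) (cut α q0.1) := (le_cut_iff le_top).2 e1
      exact LE_trans e2 hq0
    obtain ⟨q, hq⟩ : ∃ q : FP J X hl, q.1 = raise (glue q0.1 p.1 α) k0 := ⟨⟨_, hV'⟩, rfl⟩
    have hqg : LE hl ⊤ q.1 (glue q0.1 p.1 α) := by
      rw [hq]
      exact raise_le hV k0
    have hqp : q ≤ p := LE_trans hqg hgp
    have hqq : q ≤ q0 := LE_trans hqg hgq
    have hht : k0 ≤ q.1.ht := by
      rw [hq]
      exact le_max_right _ _
    have hel : q.1.el x α = p.1.el x α := by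
      rw [hq, raise_el, glue_el, if_neg (lt_irrefl α)]
    have htw : (x, α) ∈ q.1.tw := by
      rw [hq, raise_tw]
      exact mem_glue_tw.2 (Or.inr ⟨hxp, le_rfl⟩)
    refine ⟨q, hqp.trans hp0, ?_⟩
    have e1 : ∀ᶠ G in gen (FP J X hl), q ∈ G → g G p.1.ht = k0 := d5 _ q0 q hqq hk0
    have e2 : ∀ᶠ G in gen (FP J X hl), ∀ k : ℕ, k < q.1.ht → q ∈ G →
        (k ∈ tF J X hl x α G ↔ k ∈ q.1.el x α) := by
      refine eventually_countable_forall.2 fun k => ?_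
      by_cases hk : k < q.1.ht
      · exact (c8 x α hα hnl q htw k hk).mono fun G hG _ => hG
      · exact Eventually.of_forall fun G h => absurd h hk
    filter_upwards [e1, e2] with G a1 a2 hG
    refine ⟨p.1.ht, hmp, fun k hk1 hk2 hk3 => ?_⟩
    rw [a1 hG] at hk2
    have h5 := (a2 k (hk2.trans_le hht) hG).1 hk3
    rw [hel] at h5
    exact absurd (p.2.el hxp hα h5) (not_lt.2 hk1)
  have h6 : ∀ᶠ G in gen (FP J X hl), ∀ m : ℕ, ∃ i ≥ m, ∀ k, i ≤ k → k < g G i →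
      k ∉ tF J X hl x α G := eventually_countable_forall.2 key
  filter_upwards [h6] with G hG
  exact frequently_atTop.2 hG

end Pool.Agent.FS
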